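import Pool.Agent.H66.XP.TH

/-!
# Exponential time in EQP: the answers relative to the final oracle (row VWX)
-/

set_option autoImplicit false

namespace Pool.Agent.H80.XP

open Finset Pool.Agent.H6.NB Pool.Agent.H70.OQ Pool.Agent.H70.EH Pool.Agent.H70.EI Pool.Agent.H78.XQ
open Pool.Agent.H66.IP (Local ins sp dm IsZ scl)
open Pool.Agent.H66.IQ Pool.Agent.H66.AV Pool.Agent.H66.XP
open Pool.Agent.H75.OM (BPos)

theorem pf_VWX (hQDP : T_QDP) : T_VWX := by
  intro V E O hO g P B hag a ha hnh
  have key : ∀ w ∈ qd (vw V E O g P B a) ((V a.1).tree a.2), O P g w = vw V E O g P B a w := by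
    intro w hw
    by_cases hb : ∃ p ∈ E, BPos (dm (lo V)) p w
    · obtain ⟨p, hp, hpw⟩ := hb
      have e1 : (O P g w = vw V E O g P B a w) ↔ (O P g w =
        O (mxc V E (scl (lo V) a) P B) (gd (3 * scl (lo V) a) g) w) := Iff.rfl
      rw [e1]
      have hA := hag ⟨p, hp⟩
      rcases hpw with ⟨u, v, b, rfl⟩ | ⟨z, rfl⟩
      · have h1 := congrFun (congrFun (hO.blk P g p hp) u) (b, v)
        have h2 := congrFun (congrFun
          (hO.blk (mxc V E (scl (lo V) a) P B) (gd (3 * scl (lo V) a) g) p hp) u) (b, v)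
        have h3 : O P g (pos (hm (dm (lo V)) p) (List.ofFn u) (List.ofFn v) b) =
            (P ⟨p, hp⟩).1 u (b, v) := h1
        have h4 : O (mxc V E (scl (lo V) a) P B) (gd (3 * scl (lo V) a) g)
            (pos (hm (dm (lo V)) p) (List.ofFn u) (List.ofFn v) b) =
            (mxc V E (scl (lo V) a) P B ⟨p, hp⟩).1 u (b, v) := h2
        rw [h3, h4]
        unfold mxc
        split_ifs with hlt
        · rfl
        · have h5 : u ∈ (msk V E O g P B p).1 := by
            unfold msk
            simp only [mem_filter, mem_univ, true_and]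
            exact ⟨a, ha, not_lt.1 hlt, _, hw, (b, v), rfl⟩
          exact congrFun (hA.1 u h5) (b, v)
      · have h1 := congrFun (hO.cor P g p hp) z
        have h2 := congrFun
          (hO.cor (mxc V E (scl (lo V) a) P B) (gd (3 * scl (lo V) a) g) p hp) z
        have h3 : O P g (wps (hm (dm (lo V)) p) (List.ofFn z)) = (P ⟨p, hp⟩).2 z := h1
        have h4 : O (mxc V E (scl (lo V) a) P B) (gd (3 * scl (lo V) a) g)
            (wps (hm (dm (lo V)) p) (List.ofFn z)) =
            (mxc V E (scl (lo V) a) P B ⟨p, hp⟩).2 z := h2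
        rw [h3, h4]
        unfold mxc
        split_ifs with hlt
        · rfl
        · have h5 : z ∈ (msk V E O g P B p).2 := by
            unfold msk
            simp only [mem_filter, mem_univ, true_and]
            exact ⟨a, ha, not_lt.1 hlt, _, hw, rfl⟩
          exact hA.2 z h5
    · have hn : ∀ p ∈ E, ¬ BPos (dm (lo V)) p w := fun p hp h => hb ⟨p, hp, h⟩
      have h1 : O P g w = g w := hO.out w hn P g
      have h2 : vw V E O g P B a w = gd (3 * scl (lo V) a) g w :=
        hO.out w hn (mxc V E (scl (lo V) a) P B) (gd (3 * scl (lo V) a) g)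
      rw [h1, h2]
      unfold gd
      split_ifs with hx
      · obtain ⟨n, k, x, q, hle, rfl⟩ := hx
        by_contra hne
        exact hnh ⟨n, k, x, q, hle, hw, by simpa using hne⟩
      · rfl
  exact ((hQDP (vw V E O g P B a) ((V a.1).tree a.2)).2 (O P g) key).2

end Pool.Agent.H80.XP
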